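import Pool.Agent.EG327.AllN

set_option autoImplicit false

namespace Pool.Agent.Results.MP_451a93_nt.LiminfAboveHalf

/-- There are `ε > 0` and `N₀` such that for all `N ≥ N₀` some `A ⊆ {1, ..., N}` without distinct
`a, b` with `a + b ∣ a * b` has at least `(1/2 + ε) N` elements. -/
theorem result :
    ∃ ε : ℝ, 0 < ε ∧ ∃ N₀ : ℕ, ∀ N : ℕ, N₀ ≤ N → ∃ A : Finset ℕ,
      A ⊆ Finset.Icc 1 N ∧
      (∀ a ∈ A, ∀ b ∈ A, a ≠ b → ¬ (a + b ∣ a * b)) ∧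
      (1 / 2 + ε) * (N : ℝ) ≤ (A.card : ℝ) := by
  obtain ⟨ε, hε, N₀, h⟩ := Pool.Agent.EG327.all_N
  refine ⟨ε, hε, N₀, fun N hN => ?_⟩
  obtain ⟨A, h1, h2, h3⟩ := h N hN
  exact ⟨A, h1, h2, h3⟩

end Pool.Agent.Results.MP_451a93_nt.LiminfAboveHalf
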